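import Pool.Agent.H82.KT.TC

/-!
# MP_ee74d2_an, theorem KT: row QUA
-/

set_option autoImplicit false

namespace Pool.Agent.H13.KTN

open Pool.Agent.H82.KT

theorem pf_QUA (hCYC : T_CYC) (hQUB : T_QUB) : T_QUA := by
  classical
  intro ι _ τ G P V Y m J E L ω ρ μ f s x a b a' b' hJ hE hL hω hω1 hρ hρJ hμ hf hI hPat hG
    hpair hbox
  set yy : τ → ℤ → ι → ℤ := fun g u =>
    if h : ∃ y ∈ Y u, Nr E (P g) (V g) u y then h.choose else fun _ => 0 with hyydef
  have hyy : ∀ g ∈ G, ∀ u ∈ six s x a b a' b', yy g u ∈ Y u ∧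
      Nr E (P g) (V g) u (yy g u) := by
    intro g hg u hu
    have h := (hG g hg).2 u hu
    have e : yy g u = h.choose := by
      rw [hyydef]
      exact dif_pos h
    rw [e]
    exact h.choose_spec
  have ms : s ∈ six s x a b a' b' := by simp [six]
  have mb : b ∈ six s x a b a' b' := by simp [six]
  have ma : a' ∈ six s x a b a' b' := by simp [six]
  have hc := hCYC τ (ι → ℤ) G (fun g => yy g s) (fun g => yy g b) (fun g => yy g a')
    (Y s) (Y b) (Y a')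
    (fun g hg => ⟨(hyy g hg s ms).1, (hyy g hg b mb).1, (hyy g hg a' ma).1⟩)
  have hq := hQUB ι τ G P V Y yy m J E L ω ρ μ f s x a b a' b' hJ hE hL hω hω1 hρ hρJ hμ hf
    hI hPat (fun g hg => ⟨(hG g hg).1, hyy g hg⟩) hpair hbox
  set F : ℝ := (32 * (E + L) / ω ^ 2) ^ Fintype.card ι * f * μ ^ 3 * (1 / ω) ^ (2 * m) *
      (2 / (ρ * ω ^ 2)) ^ m with hF
  have h0 : (0 : ℝ) ≤ ((Y s).card : ℝ) ^ 2 * (Y b).card * (Y a').card := by positivity
  refine hc.trans ?_
  have h1 : (((G ×ˢ G) ×ˢ (G ×ˢ G)).filter fun q => yy q.1.1 s = yy q.1.2 s ∧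
      yy q.1.2 b = yy q.2.1 b ∧ yy q.2.1 s = yy q.2.2 s ∧ yy q.2.2 a' = yy q.1.1 a').card ≤
      F * (((Y x).card : ℝ) * (Y b').card * (Y a).card) := by
    refine le_trans (le_of_eq ?_) hq
    norm_cast
  refine (mul_le_mul_of_nonneg_left (le_trans (le_of_eq ?_) h1) h0).trans (le_of_eq ?_)
  · norm_cast
    congr!
  · ring

end Pool.Agent.H13.KTN
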